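import Pool.Agent.Lib.MP_ba713f_lc.MC.Prob
import Pool.Agent.Lib.MP_ba713f_lc.MC.Param

/-!
MP_ba713f_lc: minimal colorings in `O(log^2 n / log log n)` rounds of the LOCAL model.
-/

namespace Pool.Agent.Results.MP_ba713f_lc.SubLogSquared

open Pool.Agent.Lib.MP_ba713f_lc.MC

/-- **Minimal coloring in `o(log^2 n)` rounds.**  For every `c` there are a constant `C` and a function
`T` with `T n ≤ C (log n)^2 / log log n` for `n ≥ 3`, so `T n = o((log n)^2)`, such that for every
`n ≥ 3` there is a randomised LOCAL algorithm, in which every vertex uses `r` private random bits, which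
after `T n` rounds outputs a minimal coloring with probability at least `1 - 1 / n ^ c`, on every graph
with `n` vertices and for every assignment of distinct identifiers. -/
theorem result (c : ℕ) : ∃ (C : ℝ) (T : ℕ → ℕ),
    (∀ n, 3 ≤ n → (T n : ℝ) ≤ C * Real.log n ^ 2 / Real.log (Real.log n)) ∧
    Filter.Tendsto (fun n : ℕ => (T n : ℝ) / Real.log n ^ 2) Filter.atTop (nhds 0) ∧
    ∀ n, 3 ≤ n → ∃ (r : ℕ) (A : LocalAlgorithm (Fin r → Bool)),
      ∀ (V : Type) [Fintype V] (G : SimpleGraph V) (id : V → ℕ),
        Fintype.card V = n → Function.Injective id →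
        (1 - 1 / (n : ℝ) ^ c) * (Nat.card (V → Fin r → Bool) : ℝ) ≤
          (Nat.card {ω : V → Fin r → Bool //
            IsMinimalColoring G (fun v => A.output (A.state G id ω (T n) v))} : ℝ) := by
  classical
  refine ⟨pC c, pT c, fun n hn => pT_real c hn, pT_little_o c, ?_⟩
  intro n hn
  set κ := pκ n with hκ
  set I := pI n with hI
  set Q := pQ c n with hQ
  set m := 2 * κ + 14 + Nat.log 2 n with hm
  obtain ⟨L, hL⟩ := exists_level m
  have hcardΩ : Fintype.card (Fin (I * Q * m) → Bool) =
      Fintype.card (Fin I × Fin Q → (Fin m → Bool)) := by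
    simp only [Fintype.card_fun, Fintype.card_bool, Fintype.card_fin, Fintype.card_prod]
    rw [← pow_mul]
    congr 1
    ring
  let e : (Fin (I * Q * m) → Bool) ≃ (Fin I × Fin Q → (Fin m → Bool)) :=
    Fintype.equivOfCardEq hcardΩ
  refine ⟨I * Q * m, gather (outFn (fun w => levT L (e w)) κ I Q), ?_⟩
  intro V _ G id hV hid
  have hpos : 0 < Fintype.card (Fin m → Bool) := Fintype.card_pos
  have hV2 : 2 ≤ Fintype.card V := by omega
  have hub := union_bound G hid hV2 κ I Q m (3 * (c + 1) * (Nat.log 2 n + 1)) (pQ_dvd c n) L hL
    hpos (by rw [hV]) (by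
      intro v
      apply good_enough
      · exact (Finset.card_filter_le _ _).trans (by rw [Finset.card_range])
      · have h1 := bad_count (pushN G id) κ (id v) I
        have h2 := Finset.card_filter_add_card_filter_not (s := Finset.range I)
          (fun i => Good (pushN G id) κ i (id v))
        rw [Finset.card_range] at h2
        have h3 : pI n - ((Finset.range I).filter (fun i => Good (pushN G id) κ i (id v))).card =
            ((Finset.range I).filter (fun i => ¬ Good (pushN G id) κ i (id v))).card := by
          rw [← hI]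
          omega
        rw [h3]
        refine h1.trans ?_
        have h4 := card_ball_le G hid (rad κ I) v
        rw [hV] at h4
        exact Nat.log_mono_right h4)
  rw [hV] at hub
  have hsmall := prob_small c (n := n) (by omega)
  -- transport along `e`
  let E : (V → Fin (I * Q * m) → Bool) ≃ (V → (Fin I × Fin Q → (Fin m → Bool))) :=
    Equiv.piCongrRight (fun _ => e)
  have htot : (Nat.card (V → Fin (I * Q * m) → Bool) : ℝ) =
      (Fintype.card (V → (Fin I × Fin Q → (Fin m → Bool))) : ℝ) := by
    rw [Nat.card_congr E, Nat.card_eq_fintype_card]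
  have hgood : (Finset.univ.filter (fun ω : V → (Fin I × Fin Q → (Fin m → Bool)) =>
      ∀ v, (stages (trueInst G id ω (levT L)) κ I Q (id v)).Nonempty)).card ≤
      Nat.card {ω : V → Fin (I * Q * m) → Bool //
        IsMinimalColoring G (fun v => (gather (outFn (fun w => levT L (e w)) κ I Q)).output
          ((gather (outFn (fun w => levT L (e w)) κ I Q)).state G id ω (pT c n) v))} := by
    rw [Nat.subtype_card (Finset.univ.filter (fun ω : V → Fin (I * Q * m) → Bool =>
      IsMinimalColoring G (fun v => (gather (outFn (fun w => levT L (e w)) κ I Q)).output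
          ((gather (outFn (fun w => levT L (e w)) κ I Q)).state G id ω (pT c n) v))))
      (by intro ω; simp only [Finset.mem_filter, Finset.mem_univ, true_and])]
    apply Finset.card_le_card_of_injOn E.symm
    · intro ω hω
      rw [Finset.mem_coe, Finset.mem_filter] at hω ⊢
      refine ⟨Finset.mem_univ _, ?_⟩
      apply alg_correct G id (E.symm ω) hid (fun w => levT L (e w)) (pI_pos n)
      · exact le_rfl
      · intro v
        have h1 : trueInst G id (E.symm ω) (fun w => levT L (e w)) =
            trueInst G id ω (levT L) := by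
          have h2 : ∀ x, e (E.symm ω x) = ω x := fun x => e.apply_symm_apply (ω x)
          unfold trueInst
          congr 1
          funext a i q
          by_cases h : ∃ v, id v = a
          · rw [dif_pos h, dif_pos h]
            show levT L (e (E.symm ω h.choose)) i q = levT L (ω h.choose) i q
            rw [h2]
          · rw [dif_neg h, dif_neg h]
        rw [h1]
        exact hω.2 v
    · exact E.symm.injective.injOn
  rw [htot]
  have hW : (0 : ℝ) ≤ (Fintype.card (V → (Fin I × Fin Q → (Fin m → Bool))) : ℝ) :=
    Nat.cast_nonneg _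
  calc (1 - 1 / (n : ℝ) ^ c) * (Fintype.card (V → (Fin I × Fin Q → (Fin m → Bool))) : ℝ)
      ≤ (1 - (n : ℝ) * (3 / 4 : ℝ) ^ (3 * (c + 1) * (Nat.log 2 n + 1))) *
          (Fintype.card (V → (Fin I × Fin Q → (Fin m → Bool))) : ℝ) :=
        mul_le_mul_of_nonneg_right (by linarith) hW
    _ ≤ _ := hub
    _ ≤ _ := by exact_mod_cast hgood

end Pool.Agent.Results.MP_ba713f_lc.SubLogSquared
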